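import Mathlib

namespace Pool.Agent.H.MP_c03fb1_al

abbrev Fr (K : Type) [Field K] := FreeNonUnitalNonAssocAlgebra K ℕ

variable {K : Type} [Field K]
variable {M N : Type} [AddCommGroup M] [Module K M] [AddCommGroup N] [Module K N]

def Alg (_b : M →ₗ[K] M →ₗ[K] M) : Type := M

instance (b : M →ₗ[K] M →ₗ[K] M) : AddCommGroup (Alg b) := inferInstanceAs (AddCommGroup M)
instance (b : M →ₗ[K] M →ₗ[K] M) : Module K (Alg b) := inferInstanceAs (Module K M)

instance (b : M →ₗ[K] M →ₗ[K] M) : NonUnitalNonAssocRing (Alg b) :=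
  { (inferInstance : AddCommGroup (Alg b)) with
    mul := fun x y => b x y
    left_distrib := fun x y z => map_add (b x) y z
    right_distrib := fun x y z => LinearMap.map_add₂ b x y z
    zero_mul := fun x => LinearMap.map_zero₂ b x
    mul_zero := fun x => map_zero (b x) }

instance (b : M →ₗ[K] M →ₗ[K] M) : IsScalarTower K (Alg b) (Alg b) :=
  ⟨fun c x y => LinearMap.map_smul₂ b c x y⟩
instance (b : M →ₗ[K] M →ₗ[K] M) : SMulCommClass K (Alg b) (Alg b) :=
  ⟨fun c x y => (map_smul (b x) c y).symm⟩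

noncomputable def ev (b : M →ₗ[K] M →ₗ[K] M) (ρ : ℕ → M) (f : Fr K) : M :=
  FreeNonUnitalNonAssocAlgebra.lift K (A := Alg b) ρ f

theorem ev_of (b : M →ₗ[K] M →ₗ[K] M) (ρ : ℕ → M) (i : ℕ) :
    ev b ρ (FreeNonUnitalNonAssocAlgebra.of K i) = ρ i :=
  FreeNonUnitalNonAssocAlgebra.lift_of_apply K (A := Alg b) ρ i

theorem ev_mul (b : M →ₗ[K] M →ₗ[K] M) (ρ : ℕ → M) (f g : Fr K) :
    ev b ρ (f * g) = b (ev b ρ f) (ev b ρ g) :=
  map_mul (FreeNonUnitalNonAssocAlgebra.lift K (A := Alg b) ρ) f g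

theorem ev_sub (b : M →ₗ[K] M →ₗ[K] M) (ρ : ℕ → M) (f g : Fr K) :
    ev b ρ (f - g) = ev b ρ f - ev b ρ g :=
  map_sub (FreeNonUnitalNonAssocAlgebra.lift K (A := Alg b) ρ) f g

def Sat (b : M →ₗ[K] M →ₗ[K] M) (f : Fr K) : Prop := ∀ ρ : ℕ → M, ev b ρ f = 0

def toHom (b : M →ₗ[K] M →ₗ[K] M) (b' : N →ₗ[K] N →ₗ[K] N) (L : M →ₗ[K] N)
    (h : ∀ x y, L (b x y) = b' (L x) (L y)) : Alg b →ₙₐ[K] Alg b' where
  toFun := L
  map_smul' := fun c x => map_smul L c x
  map_zero' := map_zero L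
  map_add' := fun x y => map_add L x y
  map_mul' := h

theorem hom_ev (b : M →ₗ[K] M →ₗ[K] M) (b' : N →ₗ[K] N →ₗ[K] N) (L : M →ₗ[K] N)
    (h : ∀ x y, L (b x y) = b' (L x) (L y)) (ρ : ℕ → M) (f : Fr K) :
    L (ev b ρ f) = ev b' (fun i => L (ρ i)) f := by
  have : (toHom b b' L h).comp (FreeNonUnitalNonAssocAlgebra.lift K (A := Alg b) ρ)
      = FreeNonUnitalNonAssocAlgebra.lift K (A := Alg b') (fun i => L (ρ i)) := by
    apply FreeNonUnitalNonAssocAlgebra.hom_ext
    intro i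
    change L (ev b ρ _) = ev b' _ _
    rw [ev_of, ev_of]
  exact DFunLike.congr_fun this f

theorem Sat.sub {ι : Type} (b : M →ₗ[K] M →ₗ[K] M) (b' : N →ₗ[K] N →ₗ[K] N) (L : ι → M →ₗ[K] N)
    (h : ∀ i x y, L i (b x y) = b' (L i x) (L i y)) (hi : ∀ x, (∀ i, L i x = 0) → x = 0)
    {f : Fr K} (hf : Sat b' f) : Sat b f := fun ρ =>
  hi _ fun i => by rw [hom_ev b b' (L i) (h i)]; exact hf _

theorem Sat.quo (b : M →ₗ[K] M →ₗ[K] M) (b' : N →ₗ[K] N →ₗ[K] N) (L : M →ₗ[K] N)
    (h : ∀ x y, L (b x y) = b' (L x) (L y)) (hs : Function.Surjective L)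
    {f : Fr K} (hf : Sat b f) : Sat b' f := fun ρ => by
  choose σ hσ using fun i => hs (ρ i)
  have : ρ = fun i => L (σ i) := funext fun i => (hσ i).symm
  rw [this, ← hom_ev b b' L h, hf, map_zero]

noncomputable def cut (K : Type) [Field K] (n : ℕ) : Fr K →ₙₐ[K] Fr K :=
  FreeNonUnitalNonAssocAlgebra.lift K
    (fun i => if i < n then FreeNonUnitalNonAssocAlgebra.of K i else 0)

theorem cut_ev (b : M →ₗ[K] M →ₗ[K] M) (ρ : ℕ → M) (n : ℕ) (f : Fr K) :
    ev b ρ (cut K n f) = ev b (fun i => if i < n then ρ i else 0) f := by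
  have : (FreeNonUnitalNonAssocAlgebra.lift K (A := Alg b) ρ).comp (cut K n)
      = FreeNonUnitalNonAssocAlgebra.lift K (A := Alg b)
        (fun i => (if i < n then ρ i else 0 : M)) := by
    apply FreeNonUnitalNonAssocAlgebra.hom_ext
    intro i
    change ev b ρ (cut K n _) = ev b (fun i => if i < n then ρ i else 0) _
    rw [ev_of, cut, FreeNonUnitalNonAssocAlgebra.lift_of_apply]
    split_ifs
    · rw [ev_of]
    · exact map_zero (FreeNonUnitalNonAssocAlgebra.lift K (A := Alg b) ρ)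
  exact DFunLike.congr_fun this f

theorem cut_fix (f : Fr K) : ∃ n, ∀ m, n ≤ m → cut K m f = f := by
  induction f using MonoidAlgebra.induction_linear with
  | zero => exact ⟨0, fun _ _ => map_zero _⟩
  | add x y hx hy =>
    obtain ⟨a, ha⟩ := hx
    obtain ⟨c, hc⟩ := hy
    exact ⟨max a c, fun m hm => by
      rw [map_add, ha m (le_trans (le_max_left _ _) hm), hc m (le_trans (le_max_right _ _) hm)]⟩
  | single w r =>
    have key : ∃ n, ∀ m, n ≤ m → cut K m (MonoidAlgebra.single w 1) = MonoidAlgebra.single w 1 := by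
      induction w with
      | ih1 i =>
        refine ⟨i + 1, fun m hm => ?_⟩
        have : (MonoidAlgebra.single (FreeMagma.of i) 1 : Fr K)
          = FreeNonUnitalNonAssocAlgebra.of K i := rfl
        rw [this, cut, FreeNonUnitalNonAssocAlgebra.lift_of_apply, if_pos (by omega)]
      | ih2 u v hu hv =>
        obtain ⟨a, ha⟩ := hu
        obtain ⟨c, hc⟩ := hv
        refine ⟨max a c, fun m hm => ?_⟩
        have : (MonoidAlgebra.single (u * v) 1 : Fr K)
          = MonoidAlgebra.single u 1 * MonoidAlgebra.single v 1 := by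
          rw [MonoidAlgebra.single_mul_single, mul_one]
        rw [this, map_mul, ha m (le_trans (le_max_left _ _) hm),
          hc m (le_trans (le_max_right _ _) hm)]
    obtain ⟨n, hn⟩ := key
    refine ⟨n, fun m hm => ?_⟩
    have : (MonoidAlgebra.single w r : Fr K) = r • MonoidAlgebra.single w 1 := by
      rw [MonoidAlgebra.smul_single, smul_eq_mul, mul_one]
    rw [this, map_smul, hn m hm]

section RD
variable (K) (Q : Type) [CommRing Q] [Algebra K Q]

def bR (τ : Q) : (Q × Q × Q) →ₗ[K] (Q × Q × Q) →ₗ[K] (Q × Q × Q) :=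
  LinearMap.mk₂ K
    (fun x y => (τ * (x.2.1 * y.2.2 - x.2.2 * y.2.1), y.1 * x.2.1, y.1 * x.2.2))
    (fun x x' y => by ext <;> simp <;> ring)
    (fun c x y => by ext <;> simp [Algebra.smul_def] <;> ring)
    (fun x y y' => by ext <;> simp <;> ring)
    (fun c x y => by ext <;> simp [Algebra.smul_def] <;> ring)

theorem bR_apply (τ : Q) (x y : Q × Q × Q) : bR K Q τ x y =
    (τ * (x.2.1 * y.2.2 - x.2.2 * y.2.1), y.1 * x.2.1, y.1 * x.2.2) := rfl

def bD : (Q × Q × Q × Q) →ₗ[K] (Q × Q × Q × Q) →ₗ[K] (Q × Q × Q × Q) :=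
  LinearMap.mk₂ K
    (fun x y => (0, y.1 * x.2.1, y.1 * x.2.2.1, x.2.1 * y.2.2.1 - x.2.2.1 * y.2.1))
    (fun x x' y => by ext <;> simp <;> ring)
    (fun c x y => by ext <;> simp [Algebra.smul_def] <;> ring)
    (fun x y y' => by ext <;> simp <;> ring)
    (fun c x y => by ext <;> simp [Algebra.smul_def] <;> ring)

theorem bD_apply (x y : Q × Q × Q × Q) : bD K Q x y =
    (0, y.1 * x.2.1, y.1 * x.2.2.1, x.2.1 * y.2.2.1 - x.2.2.1 * y.2.1) := rfl
end RD

open Polynomial in
theorem sat1 [Infinite K] {f : Fr K} (hf : Sat (bR K K 1) f) : Sat (bR K K[X] 1) f := by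
  refine Sat.sub (bR K K[X] 1) (bR K K 1) (fun s : K =>
    LinearMap.prodMap (aeval s).toLinearMap
      (LinearMap.prodMap (aeval s).toLinearMap (aeval s).toLinearMap)) ?_ ?_ hf
  · intro s x y
    simp [bR_apply]
  · rintro ⟨a, u, v⟩ h
    simp only [LinearMap.prodMap_apply, AlgHom.toLinearMap_apply, Prod.mk_eq_zero,
      coe_aeval_eq_eval] at h ⊢
    exact ⟨Polynomial.funext fun s => by simp [(h s).1],
      Polynomial.funext fun s => by simp [(h s).2.1],
      Polynomial.funext fun s => by simp [(h s).2.2]⟩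

open Polynomial in
theorem sat2 {f : Fr K} (hf : Sat (bR K K[X] 1) f) : Sat (bR K K[X] X) f := by
  refine Sat.sub (bR K K[X] X) (bR K K[X] 1) (fun _ : Unit =>
    LinearMap.prodMap LinearMap.id
      (LinearMap.prodMap (LinearMap.mulLeft K X) LinearMap.id)) ?_ ?_ hf
  · intro s x y
    ext1
    · simp [bR_apply]; ring
    · ext1
      · simp [bR_apply]; ring
      · simp [bR_apply]
  · rintro ⟨a, u, v⟩ h
    simpa using h ()

open Polynomial in
theorem sat3 {f : Fr K} (hf : Sat (bR K K[X] X) f) : Sat (bD K K) f := by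
  refine Sat.quo (bR K K[X] X) (bD K K)
    (((lcoeff K 0).comp (LinearMap.fst _ _ _)).prod
      ((((lcoeff K 0).comp (LinearMap.fst _ _ _)).comp (LinearMap.snd _ _ _)).prod
        ((((lcoeff K 0).comp (LinearMap.snd _ _ _)).comp (LinearMap.snd _ _ _)).prod
          ((lcoeff K 1).comp (LinearMap.fst _ _ _))))) ?_ ?_ hf
  · intro x y
    simp [bR_apply, bD_apply, coeff_X_mul]
  · rintro ⟨a, u, v, z⟩
    exact ⟨(C a + C z * X, C u, C v), by simp [coeff_X, coeff_C]⟩

open MvPolynomial in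
theorem sat4 [Infinite K] (n : ℕ) {f : Fr K} (hf : Sat (bD K K) f) :
    Sat (bD K (MvPolynomial (Fin n) K)) f := by
  refine Sat.sub _ (bD K K) (fun s : Fin n → K =>
    LinearMap.prodMap (aeval s).toLinearMap (LinearMap.prodMap (aeval s).toLinearMap
      (LinearMap.prodMap (aeval s).toLinearMap (aeval s).toLinearMap))) ?_ ?_ hf
  · intro s x y
    simp [bD_apply]
  · rintro ⟨a, u, v, z⟩ h
    simp only [LinearMap.prodMap_apply, AlgHom.toLinearMap_apply, Prod.mk_eq_zero] at h ⊢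
    exact ⟨MvPolynomial.funext fun s => by simpa using (h s).1,
      MvPolynomial.funext fun s => by simpa using (h s).2.1,
      MvPolynomial.funext fun s => by simpa using (h s).2.2.1,
      MvPolynomial.funext fun s => by simpa using (h s).2.2.2⟩

end Pool.Agent.H.MP_c03fb1_al
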