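import Pool.Agent.H.MP_c03fb1_al.A

namespace Pool.Agent.H.MP_c03fb1_al
open MvPolynomial

variable {K : Type} [Field K]

abbrev CC (K : Type) [Field K] := MvPolynomial ℕ K

noncomputable def NN (K : Type) [Field K] : ℕ → Submodule K (CC K)
  | 0 => ⊥
  | k + 1 => ⨅ i : ℕ, (NN K k).comap (pderiv i).toLinearMap

theorem mem_zero {c : CC K} : c ∈ NN K 0 ↔ c = 0 := by simp [NN]

theorem mem_succ {c : CC K} {k : ℕ} : c ∈ NN K (k + 1) ↔ ∀ i, pderiv i c ∈ NN K k := by
  simp [NN, Submodule.mem_iInf]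

theorem mono1 : ∀ (k : ℕ) {c : CC K}, c ∈ NN K k → c ∈ NN K (k + 1)
  | 0, c, h => by rw [mem_zero.1 h]; exact zero_mem _
  | k + 1, c, h => mem_succ.2 fun i => mono1 k (mem_succ.1 h i)

theorem mono {k l : ℕ} (h : k ≤ l) {c : CC K} (hc : c ∈ NN K k) : c ∈ NN K l := by
  induction h with
  | refl => exact hc
  | step _ ih => exact mono1 _ ih

theorem mul1 {κ : CC K} (hκ : κ ∈ NN K 1) : ∀ (k : ℕ) {q : CC K}, q ∈ NN K k → q * κ ∈ NN K k
  | 0, q, h => by rw [mem_zero.1 h, zero_mul]; exact zero_mem _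
  | k + 1, q, h => mem_succ.2 fun i => by
      have h0 : pderiv i κ = 0 := mem_zero.1 (mem_succ.1 hκ i)
      rw [Derivation.leibniz, h0, smul_zero, zero_add, smul_eq_mul, mul_comm]
      exact mul1 hκ k (mem_succ.1 h i)

theorem mul2 {l : CC K} (hl : l ∈ NN K 2) : ∀ (k : ℕ) {q : CC K}, q ∈ NN K k → q * l ∈ NN K (k + 1)
  | 0, q, h => by rw [mem_zero.1 h, zero_mul]; exact zero_mem _
  | k + 1, q, h => mem_succ.2 fun i => by
      rw [Derivation.leibniz, smul_eq_mul, smul_eq_mul, mul_comm l]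
      exact add_mem (mul1 (mem_succ.1 hl i) _ h) (mul2 hl k (mem_succ.1 h i))

theorem sq_mem [CharP K 2] (c : CC K) : c * c ∈ NN K 1 := mem_succ.2 fun i => by
  rw [mem_zero, Derivation.leibniz, CharTwo.add_self_eq_zero]

theorem C_mem (a : K) : (C a : CC K) ∈ NN K 1 := mem_succ.2 fun i => by
  rw [mem_zero]; simp

theorem X_mem (j : ℕ) : (X j : CC K) ∈ NN K 2 := mem_succ.2 fun i => by
  rw [pderiv_X]
  by_cases h : j = i
  · subst h; simpa using C_mem (1 : K)
  · rw [Pi.single_eq_of_ne h]; exact zero_mem _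

theorem adj [CharP K 2] (l : List (CC K)) (hl : ∀ x ∈ l, x ∈ NN K 2) :
    ∃ T : Subring (CC K), (∀ κ ∈ NN K 1, κ ∈ T) ∧ (∀ x ∈ l, x ∈ T) ∧
      ∀ c ∈ T, c ∈ NN K (l.length + 1) := by
  induction l with
  | nil =>
    refine ⟨{ carrier := {c | c ∈ NN K 1}
              mul_mem' := fun ha hb => mul1 hb 1 ha
              one_mem' := by simpa using C_mem (1 : K)
              add_mem' := fun ha hb => (NN K 1).add_mem ha hb
              zero_mem' := zero_mem (NN K 1)
              neg_mem' := fun ha => (NN K 1).neg_mem ha }, fun κ h => h, by simp, fun c h => h⟩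
  | cons x l ih =>
    obtain ⟨T, h1, h2, h3⟩ := ih fun y hy => hl y (List.mem_cons_of_mem _ hy)
    have hx := hl x List.mem_cons_self
    refine ⟨{ carrier := {c | ∃ p ∈ T, ∃ q ∈ T, c = p + q * x}
              mul_mem' := ?_
              one_mem' := ⟨1, one_mem _, 0, zero_mem _, by simp⟩
              add_mem' := ?_
              zero_mem' := ⟨0, zero_mem _, 0, zero_mem _, by simp⟩
              neg_mem' := ?_ }, fun κ h => ⟨κ, h1 κ h, 0, zero_mem _, by simp⟩, ?_, ?_⟩
    · rintro _ _ ⟨p, hp, q, hq, rfl⟩ ⟨p', hp', q', hq', rfl⟩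
      exact ⟨p * p' + q * q' * (x * x), add_mem (mul_mem hp hp')
        (mul_mem (mul_mem hq hq') (h1 _ (sq_mem x))), p * q' + q * p',
        add_mem (mul_mem hp hq') (mul_mem hq hp'), by ring⟩
    · rintro _ _ ⟨p, hp, q, hq, rfl⟩ ⟨p', hp', q', hq', rfl⟩
      exact ⟨p + p', add_mem hp hp', q + q', add_mem hq hq', by ring⟩
    · rintro _ ⟨p, hp, q, hq, rfl⟩
      exact ⟨-p, neg_mem hp, -q, neg_mem hq, by ring⟩
    · intro y hy
      rcases List.mem_cons.1 hy with rfl | hy
      · exact ⟨0, zero_mem _, 1, one_mem _, by simp⟩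
      · exact ⟨y, h2 y hy, 0, zero_mem _, by simp⟩
    · rintro _ ⟨p, hp, q, hq, rfl⟩
      exact add_mem (mono1 _ (h3 p hp)) (mul2 hx _ (h3 q hq))

theorem aeval_mem [CharP K 2] {n : ℕ} (A : Fin n → CC K) (hA : ∀ k, A k ∈ NN K 2)
    (p : MvPolynomial (Fin n) K) : aeval A p ∈ NN K (n + 1) := by
  obtain ⟨T, h1, h2, h3⟩ := adj (List.ofFn A) (by
    intro x hx
    obtain ⟨k, rfl⟩ := (List.mem_ofFn' _ _).1 hx
    exact hA k)
  rw [List.length_ofFn] at h3
  apply h3
  induction p using MvPolynomial.induction_on with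
  | C a => rw [aeval_C]; exact h1 _ (C_mem a)
  | add p q hp hq => rw [map_add]; exact add_mem hp hq
  | mul_X p k hp =>
    rw [map_mul, aeval_X]
    exact mul_mem hp (h2 _ ((List.mem_ofFn' _ _).2 ⟨k, rfl⟩))

noncomputable def DD (K : Type) [Field K] : ℕ → CC K →ₗ[K] CC K
  | 0 => LinearMap.id
  | m + 1 => (DD K m).comp (pderiv m).toLinearMap

theorem DD_succ (m : ℕ) (c : CC K) : DD K (m + 1) c = DD K m (pderiv m c) := rfl

theorem DD_zero : ∀ (m : ℕ) {c : CC K}, c ∈ NN K m → DD K m c = 0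
  | 0, _, h => mem_zero.1 h
  | m + 1, _, h => by rw [DD_succ]; exact DD_zero m (mem_succ.1 h m)

theorem DD_mul {κ : CC K} (hκ : κ ∈ NN K 1) : ∀ (m : ℕ) (c : CC K), DD K m (c * κ) = DD K m c * κ
  | 0, _ => rfl
  | m + 1, c => by
      have h0 : pderiv m κ = 0 := mem_zero.1 (mem_succ.1 hκ m)
      rw [DD_succ, DD_succ, Derivation.leibniz, h0, smul_zero, zero_add, smul_eq_mul, mul_comm,
        DD_mul hκ m]

theorem DD_prod : ∀ m : ℕ, DD K m (∏ i ∈ Finset.range m, X i) = 1
  | 0 => by simp [DD]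
  | m + 1 => by
      have h0 : pderiv m (∏ i ∈ Finset.range m, (X i : CC K)) = 0 := by
        refine Finset.prod_induction _ (fun c : CC K => pderiv m c = 0) ?_ (by simp) ?_
        · intro a b ha hb
          rw [Derivation.leibniz, ha, hb, smul_zero, smul_zero, add_zero]
        · intro i hi
          exact pderiv_X_of_ne (Finset.mem_range.1 hi).ne
      rw [DD_succ, Finset.prod_range_succ, Derivation.leibniz, h0, smul_zero, add_zero, pderiv_X_self,
        smul_eq_mul, mul_one, DD_prod m]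

abbrev MG (K : Type) [Field K] (n : ℕ) :=
  (Fin n → K) × (Fin n → MvPolynomial (Fin n) K) × (Fin n → Fin n → MvPolynomial (Fin n) K)

noncomputable def lin (K : Type) [Field K] (n : ℕ) : (Fin n → K) →ₗ[K] MvPolynomial (Fin n) K :=
  Fintype.linearCombination K fun k => X k

theorem lin_apply {n : ℕ} (a : Fin n → K) : lin K n a = ∑ k, a k • X k := by
  simp [lin, Fintype.linearCombination_apply]

noncomputable def bG (K : Type) [Field K] (n : ℕ) : MG K n →ₗ[K] MG K n →ₗ[K] MG K n :=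
  LinearMap.mk₂ K
    (fun x y => (0, fun i => lin K n y.1 * x.2.1 i,
      fun i j => x.2.1 i * y.2.1 j - x.2.1 j * y.2.1 i))
    (fun x x' y => by ext1; simp; ext1 <;> funext <;> simp <;> ring)
    (fun c x y => by ext1; simp; ext1 <;> funext <;> simp [smul_sub])
    (fun x y y' => by ext1; simp; ext1 <;> funext <;> simp <;> ring)
    (fun c x y => by ext1; simp; ext1 <;> funext <;> simp [smul_sub])

theorem bG_apply {n : ℕ} (x y : MG K n) : bG K n x y = (0, fun i => lin K n y.1 * x.2.1 i,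
      fun i j => x.2.1 i * y.2.1 j - x.2.1 j * y.2.1 i) := rfl

noncomputable def piG (K : Type) [Field K] (n : ℕ) (i j : Fin n) : MG K n →ₗ[K]
    (MvPolynomial (Fin n) K × MvPolynomial (Fin n) K × MvPolynomial (Fin n) K ×
      MvPolynomial (Fin n) K) where
  toFun := fun x => (lin K n x.1, x.2.1 i, x.2.1 j, x.2.2 i j)
  map_add' := fun x y => by simp
  map_smul' := fun c x => by simp

theorem sat5 (n : ℕ) {f : Fr K} (hf : Sat (bD K (MvPolynomial (Fin n) K)) f) : Sat (bG K n) f := by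
  refine Sat.sub _ _ (fun p : Fin n × Fin n => piG K n p.1 p.2) ?_ ?_ hf
  · intro p x y
    simp [piG, bG_apply, bD_apply]
  · rintro ⟨a, u, z⟩ h
    simp only [piG, LinearMap.coe_mk, AddHom.coe_mk, Prod.mk_eq_zero, Prod.forall] at h ⊢
    refine ⟨funext fun k => ?_, funext fun k => (h k k).2.1, funext fun i => funext fun j =>
      (h i j).2.2.2⟩
    have := congrArg (aeval (Pi.single k (1 : K) : Fin n → K)) (h k k).1
    simpa [lin_apply, Pi.single_apply] using this

abbrev MB (K : Type) [Field K] := NN K 2 × CC K × CC K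

noncomputable def bB (K : Type) [Field K] (m : ℕ) : MB K →ₗ[K] MB K →ₗ[K] MB K :=
  LinearMap.mk₂ K
    (fun x y => (0, y.1.1 * x.2.1, DD K m (x.2.1 * y.2.1)))
    (fun x x' y => by simp [mul_add, add_mul])
    (fun c x y => by simp)
    (fun x y y' => by simp [mul_add, add_mul])
    (fun c x y => by simp)

theorem bB_apply {m : ℕ} (x y : MB K) :
    bB K m x y = (0, y.1.1 * x.2.1, DD K m (x.2.1 * y.2.1)) := rfl

theorem tri [CharP K 2] {n : ℕ} (F : Fin n → Fin n → CC K) (h : ∀ i, F i i = 0) :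
    ∑ i, ∑ j, F i j = ∑ i, ∑ j, if i < j then F i j - F j i else 0 := by
  have e1 : ∀ i j, F i j = (if i < j then F i j else 0) + (if j < i then F i j else 0) := by
    intro i j
    rcases lt_trichotomy i j with h1 | rfl | h1
    · simp [h1, h1.le]
    · simp [h]
    · simp [h1, h1.le]
  have e2 : ∀ i j, (if i < j then F i j - F j i else 0)
      = (if i < j then F i j else 0) + (if i < j then F j i else 0) := by
    intro i j
    split_ifs
    · exact CharTwo.sub_eq_add _ _
    · simp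
  calc ∑ i, ∑ j, F i j
      = ∑ i, ∑ j, ((if i < j then F i j else 0) + (if j < i then F i j else 0)) :=
        Finset.sum_congr rfl fun i _ => Finset.sum_congr rfl fun j _ => e1 i j
    _ = _ := by
        simp only [e2, Finset.sum_add_distrib]
        congr 1
        exact Finset.sum_comm

noncomputable def th (m n : ℕ) (ρ : Fin n → MB K) : MG K n →ₗ[K] MB K where
  toFun := fun x => (∑ k, x.1 k • (ρ k).1,
    ∑ i, aeval (fun k => (ρ k).1.1) (x.2.1 i) * (ρ i).2.1,
    (∑ i, ∑ j, if i < j then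
      DD K m (aeval (fun k => (ρ k).1.1) (x.2.2 i j) * ((ρ i).2.1 * (ρ j).2.1)) else 0)
      + ∑ k, x.1 k • (ρ k).2.2)
  map_add' := fun x y => by
    ext1
    · simp [add_smul, Finset.sum_add_distrib]
    · ext1
      · simp [add_mul, Finset.sum_add_distrib]
      · simp only [Prod.fst_add, Prod.snd_add, Pi.add_apply, map_add, add_mul, add_smul,
          Finset.sum_add_distrib, ite_add_zero]
        abel
  map_smul' := fun c x => by
    ext1
    · simp [Finset.smul_sum, mul_smul]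
    · ext1
      · simp [Finset.smul_sum]
      · simp [Finset.smul_sum, mul_smul]

theorem th_apply (m n : ℕ) (ρ : Fin n → MB K) (x : MG K n) : th m n ρ x = (∑ k, x.1 k • (ρ k).1,
    ∑ i, aeval (fun k => (ρ k).1.1) (x.2.1 i) * (ρ i).2.1,
    (∑ i, ∑ j, if i < j then
      DD K m (aeval (fun k => (ρ k).1.1) (x.2.2 i j) * ((ρ i).2.1 * (ρ j).2.1)) else 0)
      + ∑ k, x.1 k • (ρ k).2.2) := rfl

theorem th_mul [CharP K 2] {m n : ℕ} (h : n < m) (ρ : Fin n → MB K) (x y : MG K n) :
    th m n ρ (bG K n x y) = bB K m (th m n ρ x) (th m n ρ y) := by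
  rw [bB_apply, th_apply, th_apply, th_apply, bG_apply]
  ext1
  · simp
  · ext1
    · simp only [map_mul, lin_apply, map_sum, map_smul, aeval_X, Finset.mul_sum, mul_assoc,
        Submodule.coe_sum, Submodule.coe_smul]
    · simp only [Pi.zero_apply, zero_smul, Finset.sum_const_zero, add_zero]
      rw [Finset.sum_mul_sum, map_sum]
      simp only [map_sum]
      symm
      rw [tri]
      · refine Finset.sum_congr rfl fun i _ => Finset.sum_congr rfl fun j _ => ?_
        split_ifs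
        · rw [← map_sub]
          congr 1
          simp only [map_sub, map_mul]
          ring
        · rfl
      · intro i
        have : aeval (fun k => (ρ k).1.1) (x.2.1 i) * (ρ i).2.1 *
            (aeval (fun k => (ρ k).1.1) (y.2.1 i) * (ρ i).2.1)
            = aeval (fun k => (ρ k).1.1) (x.2.1 i * y.2.1 i) * ((ρ i).2.1 * (ρ i).2.1) := by
          rw [map_mul]; ring
        rw [this, DD_mul (sq_mem _), DD_zero m (mono h (aeval_mem _ (fun k => (ρ k).1.2) _)),
          zero_mul]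

theorem sat6 [CharP K 2] {m n : ℕ} (h : n < m) {f : Fr K} (hc : cut K n f = f)
    (hf : Sat (bG K n) f) : Sat (bB K m) f := fun ρ => by
  rw [← hc, cut_ev]
  have := hom_ev (bG K n) (bB K m) (th m n fun k : Fin n => ρ k) (th_mul h _)
    (fun i => if hi : i < n then (Pi.single ⟨i, hi⟩ 1, Pi.single ⟨i, hi⟩ 1, 0) else 0) f
  rw [hf, map_zero] at this
  refine Eq.trans ?_ this.symm
  congr 1
  funext i
  split_ifs with hi
  · rw [th_apply]
    simp [Pi.single_apply, ite_smul, apply_ite]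
  · simp

noncomputable def run (w : Fr K) : ℕ → Fr K
  | 0 => w
  | k + 1 => run w k * FreeNonUnitalNonAssocAlgebra.of K (k + 3)

noncomputable def gg (K : Type) [Field K] (k : ℕ) : Fr K :=
  run (FreeNonUnitalNonAssocAlgebra.of K 0 * FreeNonUnitalNonAssocAlgebra.of K 2) k *
      (FreeNonUnitalNonAssocAlgebra.of K 0 * FreeNonUnitalNonAssocAlgebra.of K 1) -
    FreeNonUnitalNonAssocAlgebra.of K 0 *
      ((FreeNonUnitalNonAssocAlgebra.of K 0 * FreeNonUnitalNonAssocAlgebra.of K 2) *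
        run (FreeNonUnitalNonAssocAlgebra.of K 1) k)

theorem run_R (ρ : ℕ → K × K × K) (w : Fr K) : ∀ k : ℕ, (ev (bR K K 1) ρ (run w k)).2 =
    (∏ i ∈ Finset.range k, (ρ (i + 3)).1) • (ev (bR K K 1) ρ w).2
  | 0 => by simp [run]
  | k + 1 => by
      rw [run, ev_mul, ev_of, bR_apply, run_R ρ w k, Finset.prod_range_succ]
      ext <;> simp <;> ring

theorem gg_R (k : ℕ) : Sat (bR K K 1) (gg K k) := fun ρ => by
  simp only [gg, ev_sub, ev_mul, ev_of, bR_apply, run_R]
  ext <;> simp <;> ring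

theorem run_B (m : ℕ) (ρ : ℕ → MB K) (w : Fr K) : ∀ k : ℕ, (ev (bB K m) ρ (run w k)).2.1 =
    (∏ i ∈ Finset.range k, (ρ (i + 3)).1.1) * (ev (bB K m) ρ w).2.1
  | 0 => by simp [run]
  | k + 1 => by
      rw [run, ev_mul, ev_of, bB_apply, run_B m ρ w k, Finset.prod_range_succ]
      simp only
      ring

theorem gg_B (k : ℕ) : ¬ Sat (bB K (k + 3)) (gg K (k + 1)) := fun h => by
  have := congrArg (fun x => x.2.2)
    (h fun i => if i = 0 then (0, 1, 0) else (⟨X (i - 1), X_mem _⟩, 0, 0))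
  have e : (ev (bB K (k + 3)) (fun i => if i = 0 then (0, 1, 0) else (⟨X (i - 1), X_mem _⟩, 0, 0))
      (run (FreeNonUnitalNonAssocAlgebra.of K 1) (k + 1))).1 = 0 := by
    rw [run, ev_mul, bB_apply]
  simp only [gg, ev_sub, ev_mul, ev_of, bB_apply, run_B, e] at this
  have e2 := DD_prod (K := K) (k + 3)
  rw [Finset.prod_range_succ', Finset.prod_range_succ'] at e2
  simp at this
  exact one_ne_zero (e2.symm.trans this)

theorem main [CharP K 2] [Infinite K] (S : Finset (Fr K)) (hS : ∀ g ∈ S, Sat (bR K K 1) g) :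
    ∃ m k, (∀ g ∈ S, Sat (bB K m) g) ∧ ¬ Sat (bB K m) (gg K k) := by
  choose nn hn using fun f : Fr K => cut_fix f
  refine ⟨S.sup nn + 3, S.sup nn + 1, fun g hg => ?_, gg_B _⟩
  exact sat6 (n := S.sup nn) (by omega) (hn g _ (Finset.le_sup hg))
    (sat5 _ (sat4 _ (sat3 (sat2 (sat1 (hS g hg))))))

end Pool.Agent.H.MP_c03fb1_al
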